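import Pool.Agent.W646.DQ.Lpinv

set_option autoImplicit false

open scoped ContDiff NNReal
open Set Filter Topology

namespace Pool.Agent.W646.DQ

open Pool.Agent.W133.DQ

theorem norm_fderiv_le_of_NB {u : P2 → ℝ} {b : ℝ} (h : NB 1 u b) (p : P2) : ‖fderiv ℝ u p‖ ≤ b := by
  have := h p
  rwa [← norm_iteratedFDeriv_fderiv (n := 0), norm_iteratedFDeriv_zero] at this

theorem deriv_le {u : P2 → ℝ} (hu : ContDiff ℝ ∞ u) {b : ℝ} (h : NB 1 u b) (x y : ℝ) :
    |deriv (fun s => u (s, y)) x| ≤ b := by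
  have hwx : HasFDerivAt u (fderiv ℝ u (x, y)) (x, y) :=
    (hu.differentiable (by simp)).differentiableAt.hasFDerivAt
  have h1 : HasDerivAt (fun s : ℝ => (s, y)) ((1 : ℝ), (0 : ℝ)) x :=
    (hasDerivAt_id' x).prodMk (hasDerivAt_const _ _)
  have h2 : HasDerivAt (fun s : ℝ => u (s, y)) (fderiv ℝ u (x, y) (1, 0)) x := by
    have := HasFDerivAt.comp_hasDerivAt (l := u) (f := fun s : ℝ => (s, y)) x
      (l' := fderiv ℝ u (x, y)) hwx h1
    exact this
  rw [h2.deriv, ← Real.norm_eq_abs]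
  calc ‖fderiv ℝ u (x, y) (1, 0)‖ ≤ ‖fderiv ℝ u (x, y)‖ * ‖((1 : ℝ), (0 : ℝ))‖ :=
        ContinuousLinearMap.le_opNorm _ _
    _ ≤ b * 1 := by
        have hn : ‖((1 : ℝ), (0 : ℝ))‖ = 1 := by simp [Prod.norm_def]
        rw [hn]
        exact mul_le_mul_of_nonneg_right (norm_fderiv_le_of_NB h _) zero_le_one
    _ = b := mul_one b

theorem lip_x {u : P2 → ℝ} (hu : ContDiff ℝ ∞ u) (h : NB 1 u (1 / 2)) (x x' y : ℝ) :
    |u (x, y) - u (x', y)| ≤ 1 / 2 * |x - x'| := by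
  have hd : Differentiable ℝ (fun s : ℝ => u (s, y)) :=
    (hu.comp (contDiff_id.prodMk contDiff_const)).differentiable (by simp)
  have hl : LipschitzWith (1 / 2 : ℝ≥0) (fun s : ℝ => u (s, y)) := by
    refine lipschitzWith_of_nnnorm_deriv_le hd (fun s => ?_)
    rw [← NNReal.coe_le_coe]
    simpa using deriv_le hu h s y
  have := hl.dist_le_mul x x'
  rw [Real.dist_eq, Real.dist_eq] at this
  simpa using this

theorem exists_gu (u : P2 → ℝ) (hu : ContDiff ℝ ∞ u) (hb : ∃ C : ℝ, ∀ p, |u p| ≤ C)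
    (h : NB 1 u (1 / 2)) :
    ∃ f : Equiv.Perm P2, SmD f ∧ IsG f u := by
  obtain ⟨C, hC⟩ := hb
  obtain ⟨M, hM, hMi⟩ := lpinv ℝ u hu
    (fun x e => by
      have := (abs_le.1 (deriv_le hu h x e)).1
      linarith)
    (fun e => ⟨C, fun x => hC (x, e)⟩)
  refine ⟨M, ⟨?_, hMi⟩, hM⟩
  have : (fun p : P2 => M p) = fun p => (p.1 + u p, p.2) := funext hM
  rw [this]
  exact (contDiff_fst.add hu).prodMk contDiff_snd

theorem bounded_of_suppBox {u : P2 → ℝ} (hu : Continuous u) {a b : ℝ} (h : SuppBox a b u) :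
    ∃ C : ℝ, ∀ p, |u p| ≤ C := by
  obtain ⟨C, hC⟩ := ((isCompact_Icc (a := -|a|) (b := |a|)).prod
    (isCompact_Icc (a := -|b|) (b := |b|))).exists_bound_of_continuousOn (f := u) hu.continuousOn
  refine ⟨max C 0, fun p => ?_⟩
  by_cases hp : p ∈ Icc (-|a|) |a| ×ˢ Icc (-|b|) |b|
  · exact le_trans (by simpa using hC p hp) (le_max_left _ _)
  · have : u p = 0 := by
      apply h
      by_contra hcon
      push Not at hcon
      apply hp
      exact ⟨abs_le.1 (hcon.1.le.trans (le_abs_self a)), abs_le.1 (hcon.2.le.trans (le_abs_self b))⟩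
    rw [this]; simp

theorem gu : S_GU := by
  intro u hu ⟨a, b, hab⟩ h
  obtain ⟨f, hf, hg⟩ := exists_gu u hu (bounded_of_suppBox hu.continuous hab) h
  refine ⟨f, ⟨⟨hf, max |a| |b|, fun p hp => ?_⟩, fun p => by rw [hg p]⟩, hg⟩
  have : u p = 0 := by
    apply hab
    by_contra hcon
    push Not at hcon
    have : ‖p‖ ≤ max |a| |b| := by
      rw [Prod.norm_def]
      exact max_le_max (by simpa using hcon.1.le.trans (le_abs_self a))
        (by simpa using hcon.2.le.trans (le_abs_self b))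
    linarith
  rw [hg p, this]
  simp

theorem nv_unique {u : P2 → ℝ} {p : P2} {t : ℝ} (ht : t + u (p.1 + t, p.2) = 0)
    (huniq : ∀ s : ℝ, s + u (p.1 + s, p.2) = 0 → s = t) : nv u p = t :=
  huniq _ (Classical.epsilon_spec (p := fun t : ℝ => t + u (p.1 + t, p.2) = 0) ⟨t, ht⟩)

theorem nv_isG (f : Equiv.Perm P2) (u : P2 → ℝ) (h : IsG f u) : IsG f⁻¹ (nv u) := by
  intro p
  have h1 : f (f⁻¹ p) = p := f.apply_symm_apply p
  have h2 := h (f⁻¹ p)
  rw [h1] at h2
  have hs : (f⁻¹ p).2 = p.2 := (congrArg Prod.snd h2).symm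
  have hf1 : p.1 = (f⁻¹ p).1 + u (f⁻¹ p) := congrArg Prod.fst h2
  have hp : f⁻¹ p = ((f⁻¹ p).1, p.2) := Prod.ext rfl hs
  have key : nv u p = (f⁻¹ p).1 - p.1 := by
    apply nv_unique
    · have : (p.1 + ((f⁻¹ p).1 - p.1), p.2) = f⁻¹ p := by
        rw [hp]; simp
      rw [this]
      linarith
    · intro s hs'
      have h3 : f (p.1 + s, p.2) = p := by
        rw [h]
        refine Prod.ext ?_ rfl
        show p.1 + s + u (p.1 + s, p.2) = p.1
        linarith
      have h4 : f⁻¹ p = (p.1 + s, p.2) := by rw [Equiv.Perm.inv_eq_iff_eq]; exact h3.symm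
      rw [h4]
      ring
  rw [key]
  conv_lhs => rw [hp]
  refine Prod.ext ?_ rfl
  show (f⁻¹ p).1 = p.1 + ((f⁻¹ p).1 - p.1)
  ring

theorem nv_props (u : P2 → ℝ) (hu : ContDiff ℝ ∞ u) (h : NB 1 u (1 / 2))
    (hb : ∃ C : ℝ, ∀ p, |u p| ≤ C) :
    ContDiff ℝ ∞ (nv u) ∧ (∀ p, nv u p + u (p.1 + nv u p, p.2) = 0) ∧
    (∀ p, |nv u p| ≤ 2 * |u p|) ∧
    (∀ C : ℝ, (∀ p, |u p| ≤ C) → ∀ p, |nv u p| ≤ C) ∧
    (∀ p, u p = 0 → nv u p = 0) := by
  obtain ⟨f, hf, hg⟩ := exists_gu u hu hb h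
  have hi := nv_isG f u hg
  have hz : ∀ p, nv u p + u (p.1 + nv u p, p.2) = 0 := by
    intro p
    have h1 : f (f⁻¹ p) = p := f.apply_symm_apply p
    rw [hi p, hg] at h1
    have := congrArg Prod.fst h1
    simp only at this
    linarith
  have h2 : ∀ p, |nv u p| ≤ 2 * |u p| := by
    intro p
    have h3 := lip_x hu h (p.1 + nv u p) p.1 p.2
    have h4 := hz p
    have h5 : |nv u p| ≤ |u (p.1 + nv u p, p.2) - u (p.1, p.2)| + |u p| := by
      have : nv u p = -(u (p.1 + nv u p, p.2) - u (p.1, p.2)) - u p := by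
        have e : u (p.1, p.2) = u p := rfl
        rw [e]; linarith
      calc |nv u p| = |-(u (p.1 + nv u p, p.2) - u (p.1, p.2)) - u p| := by
            conv_lhs => rw [this]
        _ ≤ |-(u (p.1 + nv u p, p.2) - u (p.1, p.2))| + |u p| := abs_sub _ _
        _ = _ := by rw [abs_neg]
    have h6 : p.1 + nv u p - p.1 = nv u p := by ring
    rw [h6] at h3
    linarith
  refine ⟨?_, hz, h2, ?_, ?_⟩
  · have : nv u = fun p => (f⁻¹ p).1 - p.1 := by
      funext p
      rw [hi p]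
      show nv u p = p.1 + nv u p - p.1
      ring
    rw [this]
    exact (contDiff_fst.comp hf.2).sub contDiff_fst
  · intro C hC p
    have : nv u p = - u (p.1 + nv u p, p.2) := by linarith [hz p]
    rw [this, abs_neg]
    exact hC _
  · intro p hp
    have := h2 p
    rw [hp, abs_zero, mul_zero] at this
    exact abs_nonpos_iff.1 this

theorem nvthm : S_NV := by
  refine ⟨nv_isG, ?_, nv_props, ?_⟩
  · intro f g u v hf hg p
    rw [Equiv.Perm.mul_apply, hg p, hf]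
    refine Prod.ext ?_ rfl
    show p.1 + v p + u (p.1 + v p, p.2) = p.1 + (v p + u (p.1 + v p, p.2))
    ring
  · intro u v hu hv hu1 hv1 hub hvb d hd p
    have h1 := (nv_props u hu hu1 hub).2.1 p
    have h2 := (nv_props v hv hv1 hvb).2.1 p
    have h3 := lip_x hv hv1 (p.1 + nv v p) (p.1 + nv u p) p.2
    have h4 := hd (p.1 + nv u p, p.2)
    have h5 : nv u p - nv v p = (v (p.1 + nv v p, p.2) - v (p.1 + nv u p, p.2)) -
        (u (p.1 + nv u p, p.2) - v (p.1 + nv u p, p.2)) := by linarith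
    have h6 : |nv u p - nv v p| ≤ |v (p.1 + nv v p, p.2) - v (p.1 + nv u p, p.2)| +
        |u (p.1 + nv u p, p.2) - v (p.1 + nv u p, p.2)| := by
      rw [h5]; exact abs_sub _ _
    have h7 : |p.1 + nv v p - (p.1 + nv u p)| = |nv u p - nv v p| := by
      rw [abs_sub_comm]; congr 1; ring
    rw [h7] at h3
    linarith

end Pool.Agent.W646.DQ
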