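import Pool.Agent.W133.DQ.StB

set_option autoImplicit false

open scoped ContDiff NNReal
open Set Filter Topology

namespace Pool.Agent.W646.DQ

open Pool.Agent.W133.DQ

theorem lpinv : S_LPINV := by
  intro E _ _ _ w hw hd hb
  have hwe : ∀ e : E, ContDiff ℝ ∞ (fun s : ℝ => w (s, e)) := fun e =>
    hw.comp (contDiff_id.prodMk contDiff_const)
  have hmono : ∀ e : E, StrictMono (fun x : ℝ => x + w (x, e)) := by
    intro e
    apply strictMono_of_deriv_pos
    intro x
    have h1 : HasDerivAt (fun s : ℝ => w (s, e)) (deriv (fun s => w (s, e)) x) x :=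
      ((hwe e).differentiable (by simp)).differentiableAt.hasDerivAt
    have h2 : HasDerivAt (fun s : ℝ => s + w (s, e)) (1 + deriv (fun s => w (s, e)) x) x :=
      (hasDerivAt_id' x).add h1
    rw [h2.deriv]
    linarith [hd x e]
  have hsurj : ∀ e : E, Function.Surjective (fun x : ℝ => x + w (x, e)) := by
    intro e
    obtain ⟨C, hC⟩ := hb e
    refine Continuous.surjective (continuous_id.add (hwe e).continuous) ?_ ?_
    · refine tendsto_atTop_mono (f := fun x : ℝ => x - C) (fun x => ?_) ?_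
      · have := (abs_le.1 (hC x)).1
        show x - C ≤ x + w (x, e)
        linarith
      · exact tendsto_atTop_add_const_right _ (-C) tendsto_id
    · refine tendsto_atBot_mono (f := fun x : ℝ => x + C) (fun x => ?_) ?_
      · have := (abs_le.1 (hC x)).2
        show x + w (x, e) ≤ x + C
        linarith
      · exact tendsto_atBot_add_const_right _ C tendsto_id
  obtain ⟨H, hHdef⟩ : ∃ H : ℝ × E → ℝ × E, H = fun q => (q.1 + w q, q.2) := ⟨_, rfl⟩
  have hH : ContDiff ℝ ∞ H := by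
    rw [hHdef]
    exact (contDiff_fst.add hw).prodMk contDiff_snd
  have hHinj : Function.Injective H := by
    rintro ⟨x, e⟩ ⟨x', e'⟩ h
    rw [hHdef] at h
    have h1 : e = e' := congrArg Prod.snd h
    subst h1
    have h2 : x + w (x, e) = x' + w (x', e) := congrArg Prod.fst h
    rw [(hmono e).injective h2]
  have hHsurj : Function.Surjective H := by
    rintro ⟨y, e⟩
    obtain ⟨x, hx⟩ := hsurj e y
    exact ⟨(x, e), by rw [hHdef]; exact Prod.ext hx rfl⟩
  obtain ⟨M, hM⟩ : ∃ M : Equiv.Perm (ℝ × E), ∀ q, M q = H q :=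
    ⟨Equiv.ofBijective H ⟨hHinj, hHsurj⟩, fun q => rfl⟩
  refine ⟨M, fun q => by rw [hM, hHdef], ?_⟩
  have hHHi : ∀ q, H (M⁻¹ q) = q := by
    intro q
    rw [← hM]
    exact M.apply_symm_apply q
  rw [contDiff_iff_contDiffAt]
  intro z
  obtain ⟨x, hx⟩ := hHsurj z
  have hwx : HasFDerivAt w (fderiv ℝ w x) x := (hw.differentiable (by simp)).differentiableAt.hasFDerivAt
  obtain ⟨D, hD⟩ : ∃ D : (ℝ × E) →L[ℝ] ℝ, D = fderiv ℝ w x := ⟨_, rfl⟩
  rw [← hD] at hwx
  have hpart : D (1, 0) = deriv (fun s => w (s, x.2)) x.1 := by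
    have h1 : HasDerivAt (fun s : ℝ => (s, x.2)) ((1 : ℝ), (0 : E)) x.1 :=
      (hasDerivAt_id' x.1).prodMk (hasDerivAt_const _ _)
    have h2 : HasDerivAt (fun s : ℝ => w (s, x.2)) (D (1, 0)) x.1 := by
      have := HasFDerivAt.comp_hasDerivAt (l := w) (f := fun s : ℝ => (s, x.2)) x.1
        (l' := D) (by simpa using hwx) h1
      exact this
    exact h2.deriv.symm
  have hc : 0 < 1 + D (1, 0) := by rw [hpart]; linarith [hd x.1 x.2]
  have hsplit : ∀ (s : ℝ) (v : E), D (s, v) = s * D (1, 0) + D (0, v) := by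
    intro s v
    have : ((s, v) : ℝ × E) = s • ((1 : ℝ), (0 : E)) + ((0 : ℝ), v) := by
      simp
    rw [this, map_add, map_smul, smul_eq_mul]
  have hHx : HasFDerivAt H ((ContinuousLinearMap.fst ℝ ℝ E + D).prod
      (ContinuousLinearMap.snd ℝ ℝ E)) x := by
    rw [hHdef]
    exact (hasFDerivAt_fst.add hwx).prodMk hasFDerivAt_snd
  let L' : (ℝ × E) →L[ℝ] (ℝ × E) := ((1 + D (1, 0))⁻¹ • (ContinuousLinearMap.fst ℝ ℝ E -
    D.comp ((ContinuousLinearMap.inr ℝ ℝ E).comp (ContinuousLinearMap.snd ℝ ℝ E)))).prod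
      (ContinuousLinearMap.snd ℝ ℝ E)
  let e : (ℝ × E) ≃L[ℝ] (ℝ × E) := ContinuousLinearEquiv.equivOfInverse
    ((ContinuousLinearMap.fst ℝ ℝ E + D).prod (ContinuousLinearMap.snd ℝ ℝ E)) L'
    (by
      rintro ⟨s, v⟩
      refine Prod.ext ?_ rfl
      change (1 + D (1, 0))⁻¹ * ((s + D (s, v)) - D (0, v)) = s
      rw [hsplit s v]
      field_simp
      ring)
    (by
      rintro ⟨s, v⟩
      refine Prod.ext ?_ rfl
      change (1 + D (1, 0))⁻¹ * (s - D (0, v)) + D ((1 + D (1, 0))⁻¹ * (s - D (0, v)), v) = s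
      rw [hsplit ((1 + D (1, 0))⁻¹ * (s - D (0, v))) v]
      field_simp
      ring)
  have he : (e : (ℝ × E) →L[ℝ] (ℝ × E)) =
    (ContinuousLinearMap.fst ℝ ℝ E + D).prod (ContinuousLinearMap.snd ℝ ℝ E) := rfl
  have hHx' : HasFDerivAt H (e : (ℝ × E) →L[ℝ] (ℝ × E)) x := by rw [he]; exact hHx
  have hcd : ContDiffAt ℝ ∞ H x := hH.contDiffAt
  have hn : (∞ : WithTop ℕ∞) ≠ 0 := by simp
  have hloc := hcd.to_localInverse hHx' hn
  rw [hx] at hloc
  refine hloc.congr_of_eventuallyEq ?_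
  have hs := hcd.hasStrictFDerivAt' hHx' hn
  have hev : ∀ᶠ y in 𝓝 (H x), H (hs.localInverse H e x y) = y := hs.eventually_right_inverse
  rw [hx] at hev
  filter_upwards [hev] with y hy
  apply hHinj
  rw [hHHi]
  exact hy.symm

end Pool.Agent.W646.DQ
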