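import Pool.Agent.W133.DQ.StC

set_option autoImplicit false

open scoped ContDiff NNReal
open Set Filter Topology

namespace Pool.Agent.W646.DQ

open Pool.Agent.W133.DQ

/-- recurrence for the Sternberg series -/
theorem ser_rec (F : P2 → P2) (a : P2 → ℝ) (κ : ℝ) (hκ : κ ≠ 0) (q : P2)
    (hs : Summable (fun n : ℕ => (κ⁻¹) ^ n • a (F^[n] q))) :
    ∑' n : ℕ, (κ⁻¹) ^ n • a (F^[n] (F q)) = κ * (∑' n : ℕ, (κ⁻¹) ^ n • a (F^[n] q) - a q) := by
  have h1 := hs.tsum_eq_zero_add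
  have h2 : ∀ n : ℕ, (κ⁻¹) ^ (n + 1) • a (F^[n + 1] q) = κ⁻¹ * ((κ⁻¹) ^ n • a (F^[n] (F q))) := by
    intro n
    rw [Function.iterate_succ_apply, smul_eq_mul, smul_eq_mul, pow_succ]
    ring
  rw [h1]
  simp_rw [h2]
  rw [tsum_mul_left]
  simp only [pow_zero, one_smul, Function.iterate_zero, id_eq]
  field_simp
  ring

theorem f_tau {f : P2 → P2} (hf : ∀ p : P2, f (p.1 + 1, p.2) = f p + (1, 0)) (k : ℤ) (p : P2) :
    f (p.1 + k, p.2) = ((f p).1 + k, (f p).2) := by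
  induction k using Int.induction_on generalizing p with
  | zero => simp
  | succ n ih =>
    have h1 := hf (p.1 + ((n : ℤ) : ℝ), p.2)
    have h2 : (((n : ℤ) + 1 : ℤ) : ℝ) = ((n : ℤ) : ℝ) + 1 := by push_cast; ring
    rw [h2, ← add_assoc]
    simp only at h1
    rw [h1, ih]
    ext
    · simp only [Prod.fst_add]; ring
    · simp
  | pred n ih =>
    have h1 := hf (p.1 + ((-(n : ℤ) - 1 : ℤ) : ℝ), p.2)
    have h2 : ((-(n : ℤ) - 1 : ℤ) : ℝ) + 1 = ((-(n : ℤ) : ℤ) : ℝ) := by push_cast; ring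
    simp only at h1
    rw [add_assoc, h2, ih] at h1
    have h3 := congrArg Prod.fst h1
    have h4 := congrArg Prod.snd h1
    simp only [Prod.fst_add, Prod.snd_add] at h3 h4
    have h5 : ((-(n : ℤ) - 1 : ℤ) : ℝ) = ((-(n : ℤ) : ℤ) : ℝ) - 1 := by push_cast; ring
    refine Prod.ext ?_ ?_
    · simp only
      rw [h5] at h3 ⊢
      linarith
    · simp only
      linarith

theorem iter_tau {f : P2 → P2} (hf : ∀ p : P2, f (p.1 + 1, p.2) = f p + (1, 0)) (k : ℤ) (n : ℕ)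
    (p : P2) : f^[n] (p.1 + k, p.2) = ((f^[n] p).1 + k, (f^[n] p).2) := by
  induction n generalizing p with
  | zero => simp
  | succ n ih =>
    rw [Function.iterate_succ_apply, Function.iterate_succ_apply, f_tau hf, ih]

theorem iter_zero {f : P2 → P2} (hf : ∀ x : ℝ, f (x, 0) = (x, 0)) (n : ℕ) (x : ℝ) :
    f^[n] (x, 0) = (x, 0) := by
  induction n with
  | zero => rfl
  | succ n ih => rw [Function.iterate_succ_apply, hf, ih]

theorem fderiv_smul_dir {f : P2 → P2} (p : P2) (v : ℝ) :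
    fderiv ℝ f p (0, v) = v • fderiv ℝ f p (0, 1) := by
  rw [← map_smul]
  congr 1
  simp

theorem stb (hser : S_SER) : S_STB := by
  intro f hf hper hf0 hfy
  have hfd : Differentiable ℝ f := hf.differentiable (by simp)
  have hdir : ∀ (x v : ℝ), (fderiv ℝ f (x, 0) (0, v)).2 = (1 / 2 : ℝ) • v := by
    intro x v
    rw [fderiv_smul_dir, Prod.smul_snd, hfy, smul_eq_mul, smul_eq_mul]
    ring
  obtain ⟨a1, ha1⟩ : ∃ a1 : P2 → ℝ, a1 = fun p => (f p).1 - p.1 := ⟨_, rfl⟩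
  obtain ⟨a2, ha2⟩ : ∃ a2 : P2 → ℝ, a2 = fun p => 2 * (f p).2 - p.2 := ⟨_, rfl⟩
  have ha1s : ContDiff ℝ ∞ a1 := by
    rw [ha1]; exact (contDiff_fst.comp hf).sub contDiff_fst
  have ha2s : ContDiff ℝ ∞ a2 := by
    rw [ha2]; exact (contDiff_const.mul (contDiff_snd.comp hf)).sub contDiff_snd
  obtain ⟨U1, hU1o, hU1z, hU1F, hU1s, hU1c, -⟩ := hser ℝ ℝ ℝ f a1 (1 / 2) 1 1 hf ha1s (by norm_num)
    (by norm_num) (by norm_num) (Or.inl rfl) (by norm_num) hf0 hdir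
    (fun x => by rw [ha1]; simp [hf0]) (fun h => absurd h (by norm_num))
  have ha2d : ∀ (x v : ℝ), fderiv ℝ a2 (x, 0) (0, v) = 0 := by
    intro x v
    have h1 : HasFDerivAt f (fderiv ℝ f (x, 0)) (x, 0) := (hfd _).hasFDerivAt
    have h2 : HasFDerivAt a2 ((2 : ℝ) • ((ContinuousLinearMap.snd ℝ ℝ ℝ).comp (fderiv ℝ f (x, 0))) -
        ContinuousLinearMap.snd ℝ ℝ ℝ) (x, 0) := by
      rw [ha2]
      exact (((ContinuousLinearMap.snd ℝ ℝ ℝ).hasFDerivAt.comp (x, 0) h1).const_mul 2).sub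
        hasFDerivAt_snd
    rw [h2.fderiv]
    have h3 := hdir x v
    simp only [ContinuousLinearMap.sub_apply, ContinuousLinearMap.smul_apply,
      ContinuousLinearMap.comp_apply, ContinuousLinearMap.coe_snd', smul_eq_mul] at h3 ⊢
    linarith
  obtain ⟨U2, hU2o, hU2z, hU2F, hU2s, hU2c, hU2b⟩ := hser ℝ ℝ ℝ f a2 (1 / 2) (1 / 2) 2 hf ha2s
    (by norm_num) (by norm_num) (by norm_num) (Or.inr rfl) (by norm_num) hf0 hdir
    (fun x => by rw [ha2]; simp [hf0]) (fun _ => ha2d)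
  obtain ⟨S1, hS1⟩ : ∃ S1 : P2 → ℝ, S1 = fun q => ∑' n : ℕ, ((1 : ℝ)⁻¹) ^ n • a1 (f^[n] q) :=
    ⟨_, rfl⟩
  obtain ⟨S2, hS2⟩ : ∃ S2 : P2 → ℝ, S2 = fun q => ∑' n : ℕ, ((1 / 2 : ℝ)⁻¹) ^ n • a2 (f^[n] q) :=
    ⟨_, rfl⟩
  rw [← hS1] at hU1c
  rw [← hS2] at hU2c
  have hS2b : ∀ x : ℝ, ∃ η C : ℝ, 0 < η ∧ ∀ q : ℝ × ℝ, ‖q - (x, 0)‖ < η → ‖S2 q‖ ≤ C * ‖q.2‖ ^ 2 := by
    rw [hS2]; exact hU2b
  -- periodicity
  have ha1p : ∀ (k : ℤ) (p : P2), a1 (p.1 + k, p.2) = a1 p := by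
    intro k p; rw [ha1]; simp only; rw [f_tau hper]; simp only; ring
  have ha2p : ∀ (k : ℤ) (p : P2), a2 (p.1 + k, p.2) = a2 p := by
    intro k p; rw [ha2]; simp only; rw [f_tau hper]
  have hS1p : ∀ (k : ℤ) (p : P2), S1 (p.1 + k, p.2) = S1 p := by
    intro k p; rw [hS1]; simp only
    refine tsum_congr fun n => ?_
    rw [iter_tau hper, ha1p]
  have hS2p : ∀ (k : ℤ) (p : P2), S2 (p.1 + k, p.2) = S2 p := by
    intro k p; rw [hS2]; simp only
    refine tsum_congr fun n => ?_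
    rw [iter_tau hper, ha2p]
  have hS1z : ∀ x : ℝ, S1 (x, 0) = 0 := by
    intro x; rw [hS1]; simp only
    have : ∀ n : ℕ, ((1 : ℝ)⁻¹) ^ n • a1 (f^[n] (x, 0)) = 0 := by
      intro n; rw [iter_zero hf0, ha1]; simp [hf0]
    simp_rw [this]; exact tsum_zero
  have hS2z : ∀ x : ℝ, S2 (x, 0) = 0 := by
    intro x; rw [hS2]; simp only
    have : ∀ n : ℕ, ((1 / 2 : ℝ)⁻¹) ^ n • a2 (f^[n] (x, 0)) = 0 := by
      intro n; rw [iter_zero hf0, ha2]; simp [hf0]
    simp_rw [this]; exact tsum_zero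
  -- recurrences on the open sets
  have hr1 : ∀ q ∈ U1, S1 (f q) = S1 q - a1 q := by
    intro q hq
    have := ser_rec f a1 1 one_ne_zero q (hU1s q hq)
    rw [hS1]; simp only
    rw [this, one_mul]
  have hr2 : ∀ q ∈ U2, S2 (f q) = 1 / 2 * (S2 q - a2 q) := by
    intro q hq
    have := ser_rec f a2 (1 / 2) (by norm_num) q (hU2s q hq)
    rw [hS2]; simp only
    rw [this]
  -- the open set
  obtain ⟨W, hW⟩ : ∃ W : Set P2, W = {q | |(fderiv ℝ f q (0, 1)).2| < 1} := ⟨_, rfl⟩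
  have hWo : IsOpen W := by
    rw [hW]
    have hc : Continuous fun q : P2 => |(fderiv ℝ f q (0, 1)).2| :=
      (((hf.continuous_fderiv (by simp)).clm_apply continuous_const).snd).abs
    exact isOpen_lt hc continuous_const
  obtain ⟨O, hO⟩ : ∃ O : Set P2, O = U1 ∩ U2 ∩ W := ⟨_, rfl⟩
  have hOo : IsOpen O := by rw [hO]; exact (hU1o.inter hU2o).inter hWo
  have hOz : ∀ x : ℝ, (x, (0 : ℝ)) ∈ O := by
    intro x
    rw [hO]
    refine ⟨⟨hU1z x, hU2z x⟩, ?_⟩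
    rw [hW, mem_setOf_eq, hfy]
    norm_num [abs_of_pos]
  have htube : ∃ η : ℝ, 0 < η ∧ ∀ p : P2, p.1 ∈ Icc (0 : ℝ) 1 → |p.2| < η → p ∈ O := by
    obtain ⟨u, v, hu, hv, hIu, h0v, huv⟩ := generalized_tube_lemma (s := Icc (0 : ℝ) 1)
      (t := {(0 : ℝ)}) isCompact_Icc isCompact_singleton hOo (by
        rintro ⟨x, y⟩ ⟨_, hy⟩
        have : y = 0 := hy
        subst this
        exact hOz x)
    obtain ⟨η, hη, hball⟩ := Metric.isOpen_iff.1 hv 0 (h0v rfl)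
    refine ⟨η, hη, fun p hp1 hp2 => huv ⟨hIu hp1, hball ?_⟩⟩
    rw [Metric.mem_ball, Real.dist_eq, sub_zero]
    exact hp2
  obtain ⟨η, hη, hstrip⟩ := htube
  have hrep : ∀ p : P2, |p.2| < η → ∃ k : ℤ, (p.1 + k, p.2) ∈ O ∧ p.1 + k ∈ Icc (0 : ℝ) 1 := by
    intro p hp
    refine ⟨-⌊p.1⌋, ?_, ?_⟩
    · refine hstrip (p.1 + ((-⌊p.1⌋ : ℤ) : ℝ), p.2) ?_ hp
      push_cast
      exact ⟨by linarith [Int.floor_le p.1], by linarith [Int.lt_floor_add_one p.1]⟩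
    · push_cast
      exact ⟨by linarith [Int.floor_le p.1], by linarith [Int.lt_floor_add_one p.1]⟩
  -- contraction
  have hcon0 : ∀ x y : ℝ, x ∈ Icc (0 : ℝ) 1 → |y| < η → |(f (x, y)).2| ≤ |y| := by
    intro x y hx hy
    have hder : ∀ t : ℝ, HasDerivAt (fun t : ℝ => (f (x, t)).2) ((fderiv ℝ f (x, t) (0, 1)).2) t := by
      intro t
      have h1 : HasDerivAt (fun t : ℝ => (x, t)) ((0 : ℝ), (1 : ℝ)) t :=
        (hasDerivAt_const _ _).prodMk (hasDerivAt_id' t)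
      have h2 : HasDerivAt (fun t : ℝ => f (x, t)) (fderiv ℝ f (x, t) (0, 1)) t :=
        ((hfd (x, t)).hasFDerivAt).comp_hasDerivAt t h1
      exact h2.snd
    have hconv : Convex ℝ (Ioo (-η) η) := convex_Ioo _ _
    have hb : ∀ t ∈ Ioo (-η) η, ‖(fderiv ℝ f (x, t) (0, 1)).2‖ ≤ 1 := by
      intro t ht
      have hm := hstrip (x, t) hx (abs_lt.2 ht)
      rw [hO] at hm
      have := hm.2
      rw [hW] at this
      exact le_of_lt this
    have h3 := hconv.norm_image_sub_le_of_norm_hasDerivWithin_le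
      (f := fun t : ℝ => (f (x, t)).2) (f' := fun t => (fderiv ℝ f (x, t) (0, 1)).2) (C := 1)
      (fun t _ => (hder t).hasDerivWithinAt) hb (x := 0) (y := y)
      (by constructor <;> linarith) (abs_lt.1 hy)
    rw [hf0 x] at h3
    simpa using h3
  have hcon : ∀ p : P2, |p.2| < η → |(f p).2| ≤ |p.2| := by
    intro p hp
    obtain ⟨k, -, hk⟩ := hrep p hp
    have h1 := hcon0 _ _ hk hp
    have h2 := f_tau hper k p
    rw [h2] at h1
    exact h1
  obtain ⟨h, hh⟩ : ∃ h : P2 → P2, h = fun q => (q.1 + S1 q, q.2 + S2 q) := ⟨_, rfl⟩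
  have hSmooth1 : ∀ p : P2, |p.2| < η → ContDiffAt ℝ ∞ S1 p := by
    intro p hp
    obtain ⟨k, hk, -⟩ := hrep p hp
    rw [hO] at hk
    have h1 : ContDiffAt ℝ ∞ S1 (p.1 + k, p.2) := hU1c.contDiffAt (hU1o.mem_nhds hk.1.1)
    have h2 : S1 = fun p : P2 => S1 (p.1 + k, p.2) := funext fun p => (hS1p k p).symm
    rw [h2]
    exact ContDiffAt.comp p (g := S1) h1
      (((contDiff_fst.add contDiff_const).prodMk contDiff_snd).contDiffAt)
  have hSmooth2 : ∀ p : P2, |p.2| < η → ContDiffAt ℝ ∞ S2 p := by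
    intro p hp
    obtain ⟨k, hk, -⟩ := hrep p hp
    rw [hO] at hk
    have h1 : ContDiffAt ℝ ∞ S2 (p.1 + k, p.2) := hU2c.contDiffAt (hU2o.mem_nhds hk.1.2)
    have h2 : S2 = fun p : P2 => S2 (p.1 + k, p.2) := funext fun p => (hS2p k p).symm
    rw [h2]
    exact ContDiffAt.comp p (g := S2) h1
      (((contDiff_fst.add contDiff_const).prodMk contDiff_snd).contDiffAt)
  have hhs : ∀ p : P2, |p.2| < η → ContDiffAt ℝ ∞ h p := by
    intro p hp
    rw [hh]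
    exact (contDiffAt_fst.add (hSmooth1 p hp)).prodMk (contDiffAt_snd.add (hSmooth2 p hp))
  refine ⟨η, h, hη, fun p hp => (hhs p hp).contDiffWithinAt, ?_, ?_, ?_, ?_⟩
  · intro p _
    rw [hh]
    have e1 := hS1p 1 p
    have e2 := hS2p 1 p
    rw [Int.cast_one] at e1 e2
    simp only
    rw [e1, e2]
    refine Prod.ext ?_ ?_
    · simp only [Prod.fst_add]; ring
    · simp
  · intro x
    rw [hh]; simp [hS1z, hS2z]
  · intro x
    have hdiff : HasFDerivAt h (fderiv ℝ h (x, 0)) (x, 0) :=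
      ((hhs (x, 0) (by simpa using hη)).differentiableAt (by simp)).hasFDerivAt
    have h1 : HasDerivAt (fun t : ℝ => (x, t)) ((0 : ℝ), (1 : ℝ)) 0 :=
      (hasDerivAt_const _ _).prodMk (hasDerivAt_id' 0)
    have h2 : HasDerivAt (fun t : ℝ => (h (x, t)).2) ((fderiv ℝ h (x, 0) (0, 1)).2) 0 :=
      (hdiff.comp_hasDerivAt (0 : ℝ) h1).snd
    have h3 : HasDerivAt (fun t : ℝ => S2 (x, t)) 0 0 := by
      obtain ⟨ρ, C, hρ, hb⟩ := hS2b x
      rw [hasDerivAt_iff_isLittleO_nhds_zero]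
      simp only [zero_add, hS2z, sub_zero, smul_zero]
      have hO2 : (fun t : ℝ => S2 (x, t)) =O[𝓝 0] fun t : ℝ => t ^ 2 := by
        refine Asymptotics.IsBigO.of_bound C ?_
        filter_upwards [Metric.ball_mem_nhds (0 : ℝ) hρ] with t ht
        have h4 : ‖((x, t) : ℝ × ℝ) - (x, 0)‖ < ρ := by
          rw [Prod.mk_sub_mk, sub_self, sub_zero, Prod.norm_def]
          simp only [norm_zero]
          rw [max_eq_right (norm_nonneg _)]
          simpa using ht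
        have h5 := hb (x, t) h4
        rw [norm_pow]
        exact h5
      refine hO2.trans_isLittleO ?_
      have := Asymptotics.isLittleO_pow_id (𝕜 := ℝ) (n := 2) (by norm_num)
      exact this
    have h4 : HasDerivAt (fun t : ℝ => (h (x, t)).2) (1 + 0) 0 := by
      have : (fun t : ℝ => (h (x, t)).2) = fun t : ℝ => t + S2 (x, t) := by
        funext t; rw [hh]
      rw [this]
      exact (hasDerivAt_id' (0 : ℝ)).add h3
    have := h2.unique h4
    rw [this]; norm_num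
  · intro p hp
    refine ⟨lt_of_le_of_lt (hcon p hp) hp, ?_⟩
    obtain ⟨k, hk, -⟩ := hrep p hp
    rw [hO] at hk
    have e1 := hr1 _ hk.1.1
    have e2 := hr2 _ hk.1.2
    rw [f_tau hper, hS1p, ha1p] at e1
    rw [f_tau hper, hS2p, ha2p] at e2
    have e1' : S1 (f p) = S1 p - a1 p := by rw [e1, hS1p]
    have e2' : S2 (f p) = 1 / 2 * (S2 p - a2 p) := by rw [e2, hS2p]
    rw [hh]
    simp only
    rw [e1', e2', ha1, ha2]
    refine Prod.ext ?_ ?_
    · simp only; ring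
    · simp only; ring

end Pool.Agent.W646.DQ
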