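import Pool.Agent.W133.DQ.StB

set_option autoImplicit false

open scoped ContDiff NNReal
open Set Filter Topology

namespace Pool.Agent.W646.DQ

open Pool.Agent.W133.DQ

theorem pert : S_PERT := by
  intro u hu hd
  have hud : ∀ t : ℝ, Differentiable ℝ (fun q : P2 => u (t, q)) := fun t =>
    (hu.comp (contDiff_const.prodMk contDiff_id)).differentiable (by simp)
  have hlip : ∀ t : ℝ, LipschitzWith (1 / 2 : ℝ≥0) (fun q : P2 => u (t, q)) := by
    intro t
    refine lipschitzWith_of_nnnorm_fderiv_le (hud t) (fun p => ?_)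
    rw [← NNReal.coe_le_coe]
    simpa using hd t p
  have happ : ∀ t : ℝ, ApproximatesLinearOn (fun p : P2 => p + u (t, p))
      (ContinuousLinearEquiv.refl ℝ P2 : P2 →L[ℝ] P2) univ (1 / 2 : ℝ≥0) := by
    intro t x _ y _
    have h := (hlip t).dist_le_mul x y
    rw [dist_eq_norm, dist_eq_norm] at h
    have e : x + u (t, x) - (y + u (t, y)) -
        (ContinuousLinearEquiv.refl ℝ P2 : P2 →L[ℝ] P2) (x - y) = u (t, x) - u (t, y) := by
      simp; abel
    rw [e]
    exact h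
  have hc : Subsingleton P2 ∨ (1 / 2 : ℝ≥0) <
      ‖((ContinuousLinearEquiv.refl ℝ P2).symm : P2 →L[ℝ] P2)‖₊⁻¹ := by
    right
    have : ‖((ContinuousLinearEquiv.refl ℝ P2).symm : P2 →L[ℝ] P2)‖₊ ≤ 1 := by
      rw [← NNReal.coe_le_coe]
      exact ContinuousLinearMap.norm_id_le
    have hpos : 0 < ‖((ContinuousLinearEquiv.refl ℝ P2).symm : P2 →L[ℝ] P2)‖₊ :=
      (ContinuousLinearEquiv.refl ℝ P2).nnnorm_symm_pos
    calc (1 / 2 : ℝ≥0) < 1 := by
          rw [← NNReal.coe_lt_coe]; norm_num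
      _ ≤ _ := (one_le_inv₀ hpos).2 this
  let M : ℝ → Equiv.Perm P2 := fun t => ((happ t).toHomeomorph _ hc).toEquiv
  have hM : ∀ t p, M t p = p + u (t, p) := fun t p => rfl
  refine ⟨M, hM, ?_⟩
  -- the total map
  let H : ℝ × P2 → ℝ × P2 := fun q => (q.1, q.2 + u q)
  have hH : ContDiff ℝ ∞ H := contDiff_fst.prodMk (contDiff_snd.add hu)
  have hHinj : Function.Injective H := by
    rintro ⟨t, p⟩ ⟨t', p'⟩ h
    have h1 : t = t' := congrArg Prod.fst h
    subst h1
    have h2 : p + u (t, p) = p' + u (t, p') := congrArg Prod.snd h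
    rw [← hM, ← hM] at h2
    rw [(M t).injective h2]
  let Hi : ℝ × P2 → ℝ × P2 := fun q => (q.1, (M q.1)⁻¹ q.2)
  have hHHi : ∀ q, H (Hi q) = q := by
    rintro ⟨t, p⟩
    refine Prod.ext rfl ?_
    change (M t)⁻¹ p + u (t, (M t)⁻¹ p) = p
    rw [← hM]
    exact (M t).apply_symm_apply p
  have key : ContDiff ℝ ∞ Hi := by
    rw [contDiff_iff_contDiffAt]
    intro z
    obtain ⟨x, hx⟩ : ∃ x, H x = z := ⟨Hi z, hHHi z⟩
    have hux : HasFDerivAt u (fderiv ℝ u x) x := (hu.differentiable (by simp)).differentiableAt.hasFDerivAt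
    have hHx : HasFDerivAt H ((ContinuousLinearMap.fst ℝ ℝ P2).prod
        (ContinuousLinearMap.snd ℝ ℝ P2 + fderiv ℝ u x)) x :=
      hasFDerivAt_fst.prodMk (hasFDerivAt_snd.add hux)
    set L : (ℝ × P2) →L[ℝ] (ℝ × P2) := (ContinuousLinearMap.fst ℝ ℝ P2).prod
        (ContinuousLinearMap.snd ℝ ℝ P2 + fderiv ℝ u x) with hL
    have hpart : ∀ v : P2, fderiv ℝ u x (0, v) = fderiv ℝ (fun q : P2 => u (x.1, q)) x.2 v := by
      intro v
      have h1 : HasFDerivAt (fun q : P2 => (x.1, q)) (ContinuousLinearMap.inr ℝ ℝ P2) x.2 :=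
        hasFDerivAt_prodMk_right x.1 x.2
      have h2 : HasFDerivAt (fun q : P2 => u (x.1, q))
          ((fderiv ℝ u x).comp (ContinuousLinearMap.inr ℝ ℝ P2)) x.2 := by
        have := HasFDerivAt.comp (g := u) (f := fun q : P2 => (x.1, q)) x.2
          (g' := fderiv ℝ u x) (by simpa using hux) h1
        exact this
      rw [h2.fderiv]
      simp
    have hinj : Function.Injective L := by
      rw [injective_iff_map_eq_zero]
      rintro ⟨s, v⟩ h
      have h1 : s = 0 := congrArg Prod.fst h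
      subst h1
      have h2 : v + fderiv ℝ u x (0, v) = 0 := congrArg Prod.snd h
      rw [hpart] at h2
      have h3 : ‖v‖ ≤ 1 / 2 * ‖v‖ := by
        have : v = - (fderiv ℝ (fun q : P2 => u (x.1, q)) x.2 v) := eq_neg_of_add_eq_zero_left h2
        calc ‖v‖ = ‖fderiv ℝ (fun q : P2 => u (x.1, q)) x.2 v‖ := by
              conv_lhs => rw [this, norm_neg]
          _ ≤ ‖fderiv ℝ (fun q : P2 => u (x.1, q)) x.2‖ * ‖v‖ := ContinuousLinearMap.le_opNorm _ _
          _ ≤ 1 / 2 * ‖v‖ := by gcongr; exact hd x.1 x.2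
      have h4 : ‖v‖ = 0 := by linarith [norm_nonneg v]
      rw [norm_eq_zero.1 h4]
      rfl
    let e : (ℝ × P2) ≃L[ℝ] (ℝ × P2) :=
      (LinearEquiv.ofInjectiveEndo (L : (ℝ × P2) →ₗ[ℝ] (ℝ × P2)) hinj).toContinuousLinearEquiv
    have he : (e : (ℝ × P2) →L[ℝ] (ℝ × P2)) = L := by
      rfl
    have hHx' : HasFDerivAt H (e : (ℝ × P2) →L[ℝ] (ℝ × P2)) x := by rw [he]; exact hHx
    have hcd : ContDiffAt ℝ ∞ H x := hH.contDiffAt
    have hn : (∞ : WithTop ℕ∞) ≠ 0 := by simp
    have hloc := hcd.to_localInverse hHx' hn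
    rw [hx] at hloc
    refine hloc.congr_of_eventuallyEq ?_
    have hs := hcd.hasStrictFDerivAt' hHx' hn
    have hev : ∀ᶠ y in 𝓝 (H x), H (hs.localInverse H e x y) = y := hs.eventually_right_inverse
    rw [hx] at hev
    filter_upwards [hev] with y hy
    apply hHinj
    rw [hHHi]
    exact hy.symm
  exact contDiff_snd.comp key

end Pool.Agent.W646.DQ
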